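import Mathlib

/-!
# Fast contract-signing protocols in which every party pays `O(√N)`

Put `k = ⌊√N⌋ + 1` and divide the contracts into `k` groups: contract `n` is in group `g = n / k`.
The contracts of group `g` travel along the cyclic order `g + 1, g + 2, …, g + N = g` (mod `N`), where
contract `n` leaves out the party `n` and is sent to it on the last day. In each group every party
pays at most `3`, except for the last party `g` of the order, which pays at most `k` on the last day.
-/

set_option autoImplicit false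

namespace Pool.Agent.Results.MP_e6c168_lc.SqrtCost

open Finset Filter Topology

/-- A fast protocol for `N` parties: `P n d` is the party which holds contract `n` on day `d`,
`0 ≤ d ≤ N - 1`; every `P n` is a permutation, and contract `n` is held by party `n` on day
`N - 1`. -/
def IsFast {N : ℕ} (P : Fin N → Equiv.Perm (Fin N)) : Prop :=
  ∀ n d : Fin N, (d : ℕ) = N - 1 → P n d = n

/-- The amount paid by party `i`: the number of pairs `(d, j)`, `0 ≤ d ≤ N - 2`, such that
`P n d = i` and `P n (d + 1) = j` for at least one contract `n`. -/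
noncomputable def cost {N : ℕ} (P : Fin N → Equiv.Perm (Fin N)) (i : Fin N) : ℕ :=
  {p : Fin N × Fin N | ∃ (h : (p.1 : ℕ) + 1 < N) (n : Fin N),
    P n p.1 = i ∧ P n ⟨(p.1 : ℕ) + 1, h⟩ = p.2}.ncard

/-- `M(N)`: the least `m` such that in some fast protocol for `N` parties every party pays at most
`m`. -/
noncomputable def M (N : ℕ) : ℕ :=
  sInf {m : ℕ | ∃ P : Fin N → Equiv.Perm (Fin N), IsFast P ∧ ∀ i, cost P i ≤ m}

/-- the `d`-th element of the cyclic order of group `g` -/
def rot (N g d : ℕ) : ℕ := (g + 1 + d) % N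

/-- the position of `i` in the cyclic order of group `g` -/
def pos (N g i : ℕ) : ℕ := (i + (N - (g + 1))) % N

lemma rot_pos {N g i : ℕ} (hg : g < N) (hi : i < N) : rot N g (pos N g i) = i := by
  unfold rot pos
  rw [Nat.add_mod, Nat.mod_mod, ← Nat.add_mod]
  have : g + 1 + (i + (N - (g + 1))) = i + N := by omega
  rw [this, Nat.add_mod_right, Nat.mod_eq_of_lt hi]

lemma pos_rot {N g d : ℕ} (hg : g < N) (hd : d < N) : pos N g (rot N g d) = d := by
  unfold rot pos
  rw [Nat.add_mod, Nat.mod_mod, ← Nat.add_mod]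
  have : g + 1 + d + (N - (g + 1)) = d + N := by omega
  rw [this, Nat.add_mod_right, Nat.mod_eq_of_lt hd]

lemma rot_lt {N : ℕ} (g d : ℕ) (hN : 0 < N) : rot N g d < N := Nat.mod_lt _ hN

lemma pos_lt {N : ℕ} (g d : ℕ) (hN : 0 < N) : pos N g d < N := Nat.mod_lt _ hN

lemma rot_last {N g : ℕ} (hg : g < N) : rot N g (N - 1) = g := by
  unfold rot
  have : g + 1 + (N - 1) = g + N := by omega
  rw [this, Nat.add_mod_right, Nat.mod_eq_of_lt hg]

/-- leave out the element at position `p` and put it at the end -/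
def sg (N p d : ℕ) : ℕ := if d = N - 1 then p else if d < p then d else d + 1

lemma sg_lt {N p d : ℕ} (hp : p < N) (hd : d < N) : sg N p d < N := by
  unfold sg
  split_ifs <;> omega

lemma sg_inj {N p d d' : ℕ} (hp : p < N) (hd : d < N) (hd' : d' < N)
    (h : sg N p d = sg N p d') : d = d' := by
  unfold sg at h
  split_ifs at h <;> omega

/-- the position of contract `n` of group `g` on day `d` -/
def loc (N g n d : ℕ) : ℕ := rot N g (sg N (pos N g n) d)

section

variable {N : ℕ} (hN : 0 < N)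

/-- The path of contract `n` in group `g`. -/
noncomputable def path (g : ℕ) (hg : g < N) (n : Fin N) : Equiv.Perm (Fin N) :=
  Equiv.ofBijective (fun d : Fin N => ⟨loc N g n d, rot_lt g _ hN⟩) (by
    apply Finite.injective_iff_bijective.1
    intro d d' h
    have h1 : loc N g n d = loc N g n d' := congrArg Fin.val h
    unfold loc at h1
    have h2 := congrArg (pos N g) h1
    rw [pos_rot hg (sg_lt (pos_lt g _ hN) d.2), pos_rot hg (sg_lt (pos_lt g _ hN) d'.2)] at h2
    exact Fin.ext (sg_inj (pos_lt g _ hN) d.2 d'.2 h2))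

lemma path_val (g : ℕ) (hg : g < N) (n d : Fin N) : ((path hN g hg n d : Fin N) : ℕ) =
    loc N g n d := rfl

end

lemma grp_lt {N : ℕ} (hN : 2 ≤ N) (n : Fin N) : (n : ℕ) / (Nat.sqrt N + 1) < Nat.sqrt N + 1 := by
  rw [Nat.div_lt_iff_lt_mul (by omega)]
  exact lt_of_lt_of_le n.2 (Nat.lt_succ_sqrt N).le

lemma k_le {N : ℕ} (hN : 2 ≤ N) : Nat.sqrt N + 1 ≤ N := by
  have := Nat.sqrt_lt_self (n := N) (by omega)
  omega

/-- The protocol. -/
noncomputable def prot {N : ℕ} (hN : 2 ≤ N) (n : Fin N) : Equiv.Perm (Fin N) :=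
  path (by omega) ((n : ℕ) / (Nat.sqrt N + 1)) (lt_of_lt_of_le (grp_lt hN n) (k_le hN)) n

lemma prot_fast {N : ℕ} (hN : 2 ≤ N) : IsFast (prot hN) := by
  intro n d hd
  apply Fin.ext
  unfold prot
  rw [path_val]
  unfold loc sg
  rw [if_pos hd, rot_pos (lt_of_lt_of_le (grp_lt hN n) (k_le hN)) n.2]

lemma prot_cost {N : ℕ} (hN : 2 ≤ N) (i : Fin N) : cost (prot hN) i ≤ 4 * (Nat.sqrt N + 1) := by
  classical
  obtain ⟨k, hk⟩ : ∃ k, k = Nat.sqrt N + 1 := ⟨_, rfl⟩
  let S : Finset (ℕ × ℕ) :=
    ((range k).image (fun g => (pos N g i, rot N g (pos N g i + 1)))) ∪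
    ((range k).image (fun g => (pos N g i, rot N g (pos N g i + 2)))) ∪
    ((range k).image (fun g => (pos N g i - 1, rot N g (pos N g i + 1)))) ∪
    ((range k).image (fun r => (N - 2, k * (i : ℕ) + r)))
  have hS : S.card ≤ 4 * k := by
    have h1 : ∀ f : ℕ → ℕ × ℕ, ((range k).image f).card ≤ k := fun f =>
      Finset.card_image_le.trans (by simp)
    have h2 := Finset.card_union_le (((range k).image (fun g => (pos N g i, rot N g (pos N g i + 1)))) ∪
      ((range k).image (fun g => (pos N g i, rot N g (pos N g i + 2)))) ∪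
      ((range k).image (fun g => (pos N g i - 1, rot N g (pos N g i + 1)))))
      ((range k).image (fun r => (N - 2, k * (i : ℕ) + r)))
    have h3 := Finset.card_union_le (((range k).image (fun g => (pos N g i, rot N g (pos N g i + 1)))) ∪
      ((range k).image (fun g => (pos N g i, rot N g (pos N g i + 2)))))
      ((range k).image (fun g => (pos N g i - 1, rot N g (pos N g i + 1))))
    have h4 := Finset.card_union_le ((range k).image (fun g => (pos N g i, rot N g (pos N g i + 1))))
      ((range k).image (fun g => (pos N g i, rot N g (pos N g i + 2))))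
    have e1 := h1 (fun g => (pos N g i, rot N g (pos N g i + 1)))
    have e2 := h1 (fun g => (pos N g i, rot N g (pos N g i + 2)))
    have e3 := h1 (fun g => (pos N g i - 1, rot N g (pos N g i + 1)))
    have e4 := h1 (fun r => (N - 2, k * (i : ℕ) + r))
    show Finset.card (_ ∪ _ ∪ _ ∪ _) ≤ 4 * k
    omega
  let φ : Fin N × Fin N → ℕ × ℕ := fun p => ((p.1 : ℕ), (p.2 : ℕ))
  have hφ : Function.Injective φ := by
    intro p q h
    have h1 := congrArg Prod.fst h
    have h2 := congrArg Prod.snd h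
    exact Prod.ext (Fin.ext h1) (Fin.ext h2)
  unfold cost
  rw [← Set.ncard_image_of_injective _ hφ, ← hk]
  refine le_trans ?_ hS
  rw [← Set.ncard_coe_finset S]
  refine Set.ncard_le_ncard ?_ S.finite_toSet
  rintro q ⟨⟨d, j⟩, ⟨hd, n, hi, hj⟩, rfl⟩
  simp only at hd hi hj
  have hg : (n : ℕ) / k < k := by
    rw [hk]
    exact grp_lt hN n
  have hgN : (n : ℕ) / k < N := lt_of_lt_of_le hg (hk ▸ k_le hN)
  obtain ⟨g, hgd⟩ : ∃ g, g = (n : ℕ) / k := ⟨_, rfl⟩
  have hiv : loc N g n d = i := by
    have := congrArg Fin.val hi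
    unfold prot at this
    rw [path_val, ← hk, ← hgd] at this
    exact this
  have hjv : loc N g n ((d : ℕ) + 1) = j := by
    have := congrArg Fin.val hj
    unfold prot at this
    rw [path_val, ← hk, ← hgd] at this
    exact this
  rw [← hgd] at hg hgN
  have hpn : pos N g n < N := pos_lt g _ (by omega)
  obtain ⟨p, hp⟩ : ∃ p, p = pos N g n := ⟨_, rfl⟩
  rw [← hp] at hpn
  unfold loc at hiv hjv
  rw [← hp] at hiv hjv
  have hpi : pos N g i = sg N p d := by
    rw [← hiv, pos_rot hgN (sg_lt hpn d.2)]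
  show ((d : ℕ), (j : ℕ)) ∈ (S : Set (ℕ × ℕ))
  simp only [S, coe_union, coe_image, Set.mem_union, Set.mem_image, mem_coe, mem_range,
    Prod.mk.injEq]
  by_cases h1 : (d : ℕ) + 1 = N - 1
  · by_cases h2 : (d : ℕ) < p
    · -- the last element of the order is left out
      refine Or.inl (Or.inl (Or.inl ⟨g, hg, ?_, ?_⟩))
      · rw [hpi, sg, if_neg (by omega), if_pos h2]
      · rw [hpi, sg, if_neg (by omega), if_pos h2]
        rw [sg, if_pos h1] at hjv
        rw [← hjv]
        congr 1
        omega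
    · -- the last party distributes the contracts
      refine Or.inr ⟨(n : ℕ) % k, ?_, by omega, ?_⟩
      · exact Nat.mod_lt _ (by omega)
      · rw [sg, if_pos h1] at hjv
        rw [hp, rot_pos hgN n.2] at hjv
        rw [sg, if_neg (by omega), if_neg h2] at hiv
        have h3 : (d : ℕ) + 1 = N - 1 := h1
        rw [h3, rot_last hgN] at hiv
        rw [← hiv, hgd, ← hjv]
        exact Nat.div_add_mod _ _
  · by_cases h2 : (d : ℕ) < p
    · by_cases h3 : (d : ℕ) + 1 < p
      · refine Or.inl (Or.inl (Or.inl ⟨g, hg, ?_, ?_⟩))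
        · rw [hpi, sg, if_neg (by omega), if_pos h2]
        · rw [hpi, sg, if_neg (by omega), if_pos h2]
          rw [sg, if_neg (by omega), if_pos h3] at hjv
          exact hjv
      · refine Or.inl (Or.inl (Or.inr ⟨g, hg, ?_, ?_⟩))
        · rw [hpi, sg, if_neg (by omega), if_pos h2]
        · rw [hpi, sg, if_neg (by omega), if_pos h2]
          rw [sg, if_neg (by omega), if_neg h3] at hjv
          exact hjv
    · refine Or.inl (Or.inr ⟨g, hg, ?_, ?_⟩)
      · rw [hpi, sg, if_neg (by omega), if_neg h2]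
        omega
      · rw [hpi, sg, if_neg (by omega), if_neg h2]
        rw [sg, if_neg (by omega), if_neg (by omega)] at hjv
        exact hjv

lemma M_le {N : ℕ} (hN : 2 ≤ N) : M N ≤ 4 * (Nat.sqrt N + 1) :=
  Nat.sInf_le ⟨prot hN, prot_fast hN, prot_cost hN⟩

lemma sqrt_small (c : ℝ) (hc : 0 < c) : ∀ᶠ N : ℕ in atTop,
    (4 * ((Nat.sqrt N : ℝ) + 1)) < c * N := by
  have h1 : Tendsto (fun N : ℕ => (N : ℝ)) atTop atTop := tendsto_natCast_atTop_atTop
  filter_upwards [h1.eventually_gt_atTop ((8 / c) ^ 2), eventually_ge_atTop 1] with N hN hN1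
  have h2 : (Nat.sqrt N : ℝ) ≤ Real.sqrt N := Real.nat_sqrt_le_real_sqrt
  have hN1' : (1 : ℝ) ≤ N := by exact_mod_cast hN1
  have h3 : 1 ≤ Real.sqrt N := by
    rw [Real.one_le_sqrt]
    exact hN1'
  have h4 : 8 / c < Real.sqrt N := by
    rw [Real.lt_sqrt (by positivity)]
    exact hN
  have h5 : 8 < c * Real.sqrt N := by
    rw [div_lt_iff₀ hc] at h4
    linarith
  have h6 : (N : ℝ) = Real.sqrt N * Real.sqrt N := (Real.mul_self_sqrt (by positivity)).symm
  calc 4 * ((Nat.sqrt N : ℝ) + 1) ≤ 8 * Real.sqrt N := by linarith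
    _ < (c * Real.sqrt N) * Real.sqrt N := by
        apply mul_lt_mul_of_pos_right h5
        linarith
    _ = c * N := by
        conv_rhs => rw [h6]
        ring

/-- **The maximal individual cost of fast contract-signing protocols is `O(√N)`.**
(1) For every `N ≥ 2` there is a fast protocol for `N` parties in which every party pays at most
`4 (⌊√N⌋ + 1)`; that is, `M(N) ≤ 4 (⌊√N⌋ + 1)`.
(2) For every `c > 0` and all large `N` there is a fast protocol for `N` parties in which every party
pays less than `c N` (the negated form of the question).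
(3) `M(N) / N → 0`. -/
theorem result :
    (∀ N : ℕ, 2 ≤ N → M N ≤ 4 * (Nat.sqrt N + 1) ∧ ∃ P : Fin N → Equiv.Perm (Fin N),
      IsFast P ∧ ∀ i, cost P i ≤ 4 * (Nat.sqrt N + 1)) ∧
    (∀ c : ℝ, 0 < c → ∀ᶠ N : ℕ in atTop, ∃ P : Fin N → Equiv.Perm (Fin N),
      IsFast P ∧ ∀ i, (cost P i : ℝ) < c * N) ∧
    Tendsto (fun N : ℕ => (M N : ℝ) / N) atTop (𝓝 0) := by
  refine ⟨fun N hN => ⟨M_le hN, prot hN, prot_fast hN, prot_cost hN⟩, ?_, ?_⟩
  · intro c hc
    filter_upwards [sqrt_small c hc, eventually_ge_atTop 2] with N hN hN2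
    refine ⟨prot hN2, prot_fast hN2, fun i => lt_of_le_of_lt ?_ hN⟩
    exact_mod_cast prot_cost hN2 i
  · rw [Metric.tendsto_atTop']
    intro ε hε
    obtain ⟨N₀, hN₀⟩ := eventually_atTop.1 ((sqrt_small ε hε).and (eventually_ge_atTop 2))
    refine ⟨N₀, fun N hN => ?_⟩
    obtain ⟨h1, h2⟩ := hN₀ N hN.le
    have hN0 : (0 : ℝ) < N := by
      have : 0 < N := by omega
      exact_mod_cast this
    rw [Real.dist_eq, sub_zero, abs_of_nonneg (by positivity), div_lt_iff₀ hN0]
    refine lt_of_le_of_lt ?_ h1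
    exact_mod_cast M_le h2

end Pool.Agent.Results.MP_e6c168_lc.SqrtCost
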